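import Mathlib
import Pool.Agent.TH125.SmallDefs

/-!
# Families of abelian varieties with a square zero operator of general rank
-/

namespace Pool.Agent.Y91.Sharp

open Matrix Pool.Agent.H204R3.CM Pool.Agent.H194R3.CM Pool.Agent.W437.HC Pool.Agent.W437.HD
  Pool.Agent.W437.HP Pool.Agent.TH125.Small

/-- The matrix `X` is in the complex Lie algebra generated by the images of the matrices
`D_Z = -i J_Z`, `Z ∈ P`, under all `ℚ`-linear maps from the complex numbers to the complex numbers
(for instance all conjugates and all derivatives of `D_Z`): the intersection of all complex spaces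
of matrices which contain these images and are closed under commutators. -/
def InLieAlgebra {g : ℕ} (P : Set (Matrix (Fin g) (Fin g) ℂ))
    (X : Matrix (Fin g ⊕ Fin g) (Fin g ⊕ Fin g) ℂ) : Prop :=
  ∀ L : Submodule ℂ (Matrix (Fin g ⊕ Fin g) (Fin g ⊕ Fin g) ℂ),
    (∀ Z ∈ P, ∀ f : ℂ →ₗ[ℚ] ℂ, (DZ Z).map f ∈ L) → (∀ A ∈ L, ∀ B ∈ L, A * B - B * A ∈ L) → X ∈ L

/-- `r` is the rank of a square zero element of the Lie algebra of the family, or of the derivative
of the period matrix at a point, or of the difference of two period matrices, or of the image of a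
period matrix under a derivation of the complex numbers. -/
def IsRank {g : ℕ} (U : Set ℂ) (Z : ℂ → Matrix (Fin g) (Fin g) ℂ) (r : ℕ) : Prop :=
  (∃ N, InLieAlgebra (Z '' U) N ∧ N * N = 0 ∧ N.rank = r) ∨
    (∃ s ∈ U, (Matrix.of fun i j => deriv (fun t => Z t i j) s).rank = r) ∨
    (∃ s ∈ U, ∃ t ∈ U, (Z s - Z t).rank = r) ∨
    ∃ s ∈ U, ∃ δ : Derivation ℚ ℂ ℂ, ((Z s).map δ).rank = r

/-- `r` is the rank of `γ - 1` for a monodromy operator `γ` with `(γ - 1) ^ 2 = 0` (for instance the
dimension of the toric part of the fibre of the Néron model at a semistable degeneration), or of a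
rational square zero element of the Lie algebra of the family. -/
def IsRationalRank {g : ℕ} (U : Set ℂ) (Z : ℂ → Matrix (Fin g) (Fin g) ℂ) (r : ℕ) : Prop :=
  (∃ γ, IsMonodromy U Z γ ∧ (γ - 1) * (γ - 1) = 0 ∧ (γ - 1).rank = r) ∨
    ∃ N : Matrix (Fin g ⊕ Fin g) (Fin g ⊕ Fin g) ℚ,
      InLieAlgebra (Z '' U) (N.map fun x : ℚ => (x : ℂ)) ∧ N * N = 0 ∧ N.rank = r

/-- The symmetric endomorphisms of the family span more than half of the endomorphisms: the
endomorphism algebra of a simple general member is of type I or II in the classification of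
Albert. -/
def MostlySymmetric {g : ℕ} (U : Set ℂ) (Z : ℂ → Matrix (Fin g) (Fin g) ℂ) : Prop :=
  Module.finrank ℚ (Submodule.span ℚ {φ | IsEndomorphism U Z φ}) <
    2 * Module.finrank ℚ (Submodule.span ℚ {φ | IsEndomorphism U Z φ ∧
      φ.transpose * fromBlocks 0 1 (-1) 0 = fromBlocks 0 1 (-1) 0 * φ})

/-- The exceptional pairs: `2 g = e * C(4j+2, 2j+1)` and `r = e * C(4j, 2j)` for some `j ≥ 1`. -/
def IsExceptional (e g r : ℕ) : Prop :=
  ∃ j, 1 ≤ j ∧ 2 * g = e * (4 * j + 2).choose (2 * j + 1) ∧ r = e * (4 * j).choose (2 * j)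

/-- One of the following conditions is satisfied:
(1) a member is simple, the symmetric endomorphisms span more than half of the endomorphisms and
there is a rational rank `r` different from `0`, `g / 2` and `g` such that `(g, r)` is not
exceptional or there is another rational rank;
(2) all endomorphisms are rational numbers and there is a rank `r` different from `0`, `g / 2` and
`g` such that `(g, r)` is not exceptional or there is another rank, and `2 g` does not divide the
product of two of the ranks;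
(3) a member is simple and the family has an odd rank, or it has rank two and the centre of the
endomorphism algebra is totally real. -/
def HasGoodRank {g : ℕ} (U : Set ℂ) (Z : ℂ → Matrix (Fin g) (Fin g) ℂ) : Prop :=
  ((∃ s ∈ U, IsSimpleAV (Z s)) ∧ MostlySymmetric U Z ∧
      ∃ r, IsRationalRank U Z r ∧ 0 < r ∧ 2 * r ≠ g ∧ r ≠ g ∧
        ((∀ e, ¬ IsExceptional e g r) ∨ ∃ r', IsRationalRank U Z r' ∧ 0 < r' ∧ r' ≠ r)) ∨
    ((∀ φ, IsEndomorphism U Z φ → ∃ q : ℚ, φ = q • (1 : Matrix (Fin g ⊕ Fin g) (Fin g ⊕ Fin g) ℚ)) ∧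
      ∃ r, IsRank U Z r ∧ 0 < r ∧ 2 * r ≠ g ∧ r ≠ g ∧
        (¬ IsExceptional 1 g r ∨ ∃ r', IsRank U Z r' ∧ 0 < r' ∧ r' ≠ r) ∧
        ∃ r₁ r₂, IsRank U Z r₁ ∧ IsRank U Z r₂ ∧ ¬ 2 * g ∣ r₁ * r₂) ∨
    (∃ s ∈ U, IsSimpleAV (Z s)) ∧ ∃ r, IsRank U Z r ∧ (Odd r ∨ r = 2 ∧ HasRealCentre U Z)

/-- `Z` is a holomorphic family of period matrices over `U` which has a good rank. -/
def IsGoodFamily {g : ℕ} (U : Set ℂ) (Z : ℂ → Matrix (Fin g) (Fin g) ℂ) : Prop :=
  (∀ i j, DifferentiableOn ℂ (fun t => Z t i j) U) ∧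
  (∀ t ∈ U, (Z t).transpose = Z t ∧ ((Z t).map Complex.im).PosDef) ∧ HasGoodRank U Z

end Pool.Agent.Y91.Sharp
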