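import Mathlib
import Pool.Agent.Y91.Sharp.Defs
import Pool.Agent.Y91.JP.Fam5

/-!
# The very general members of families with good ranks
-/

set_option linter.unusedSectionVars false

namespace Pool.Agent.Y91.Sharp

open Matrix Module Pool.Agent.H204R3.CM Pool.Agent.H194R3.CM Pool.Agent.W437.HC
  Pool.Agent.W437.HD Pool.Agent.W437.HP Pool.Agent.TH125.Small Pool.Agent.W548.Odd
  Pool.Agent.W437.HR

variable {g : ℕ}

theorem lie_iff {P : Set (Matrix (Fin g) (Fin g) ℂ)}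
    {X : Matrix (Fin g ⊕ Fin g) (Fin g ⊕ Fin g) ℂ} :
    InLieAlgebra P X ↔ X ∈ LA (DZ '' P) := by
  constructor
  · intro h
    exact h (LA (DZ '' P)) (fun Z hZ f => LA_gen (D := DZ '' P) (d := DZ Z) ⟨Z, hZ, rfl⟩ f)
      fun A hA B hB => LA_br hA hB
  · intro h L h1 h2
    refine LA_le (L := L) ⟨?_, h2⟩ h
    rintro _ ⟨Z, hZ, rfl⟩ f
    exact h1 Z hZ f

theorem rankIn {U : Set ℂ} (hU : IsOpen U) {Z : ℂ → Matrix (Fin g) (Fin g) ℂ}
    (hol : ∀ i j, DifferentiableOn ℂ (fun t => Z t i j) U)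
    (hW : IsPer (Z '' U)) {r : ℕ} (hr : IsRank U Z r) :
    Pool.Agent.TH125.RankIn (Z '' U) r := by
  rcases hr with ⟨N, hN, hN2, rfl⟩ | ⟨s, hs, rfl⟩ | ⟨s, hs, t, ht, rfl⟩ | ⟨s, hs, δ, rfl⟩
  · exact ⟨N, lie_iff.1 hN, hN2, rfl⟩
  · refine Pool.Agent.TH125.rankIn_deriv hU hW hs fun k l => ?_
    exact ((hol k l).differentiableAt (hU.mem_nhds hs)).hasDerivAt
  · exact Pool.Agent.TH125.rankIn_points hW ⟨s, hs, rfl⟩ ⟨t, ht, rfl⟩
  · exact Pool.Agent.Y91.JP.rankIn_derivation hW ⟨s, hs, rfl⟩ δ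

theorem rational {U : Set ℂ} (hne : U.Nonempty) {Z : ℂ → Matrix (Fin g) (Fin g) ℂ}
    (hW : IsPer (Z '' U)) {r : ℕ} (hr : IsRationalRank U Z r) :
    ∃ N : Matrix (Fin g ⊕ Fin g) (Fin g ⊕ Fin g) ℚ, qm N ∈ LA (DZ '' (Z '' U)) ∧
      N * N = 0 ∧ N.rank = r := by
  rcases hr with ⟨γ, h1, h2, h3⟩ | ⟨N, h1, h2, h3⟩
  · exact ⟨γ - 1, Pool.Agent.TH125.mono_mem hW hne h1 h2, h2, h3⟩
  · exact ⟨N, lie_iff.1 h1, h2, h3⟩

/-- **Rational square zero elements.** -/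
theorem pcs_rational {U : Set ℂ} (hU : IsOpen U) (hc : IsPreconnected U)
    {Z : ℂ → Matrix (Fin g) (Fin g) ℂ} (hol : ∀ i j, DifferentiableOn ℂ (fun t => Z t i j) U)
    (hW : IsPer (Z '' U)) (hs : ∃ s ∈ U, IsSimpleAV (Z s)) (hdim : MostlySymmetric U Z)
    {r : ℕ} (hr : IsRationalRank U Z r) (hr0 : 0 < r) (hr1 : 2 * r ≠ g) (hr2 : r ≠ g)
    (hr3 : (∀ e, ¬ IsExceptional e g r) ∨ ∃ r', IsRationalRank U Z r' ∧ 0 < r' ∧ r' ≠ r) :
    ∃ E : Set ℂ, E.Countable ∧ ∀ t ∈ U, t ∉ E → HasPcs (DZ (Z t)) := by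
  obtain ⟨s, hs, hsimple⟩ := hs
  have hY : ∀ t ∈ U, IsUnit (imM (Z t)).det := fun t ht =>
    (hW _ ⟨t, ht, rfl⟩).2.isUnit.map Matrix.detMonoidHom
  have e1 : Submodule.span ℚ {φ | IsEndomorphism U Z φ} = Pool.Agent.Y91.JP.EndQ (Z '' U) := by
    apply le_antisymm
    · exact Submodule.span_le.2 fun φ hφ => (Pool.Agent.Y91.JP.endo_iff hY φ).1 hφ
    · exact fun φ hφ => Submodule.subset_span ((Pool.Agent.Y91.JP.endo_iff hY φ).2 hφ)
  have e2 : Submodule.span ℚ {φ | IsEndomorphism U Z φ ∧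
      φ.transpose * fromBlocks 0 1 (-1) 0 = fromBlocks 0 1 (-1) 0 * φ} =
      Pool.Agent.Y91.JP.SymQ (Z '' U) := by
    apply le_antisymm
    · exact Submodule.span_le.2 fun φ hφ => ⟨(Pool.Agent.Y91.JP.endo_iff hY φ).1 hφ.1, hφ.2⟩
    · exact fun φ hφ => Submodule.subset_span ⟨(Pool.Agent.Y91.JP.endo_iff hY φ).2 hφ.1, hφ.2⟩
  unfold MostlySymmetric at hdim
  rw [e1, e2] at hdim
  obtain ⟨N, hN, hN2, rfl⟩ := rational ⟨s, hs⟩ hW hr
  have hN0 : N ≠ 0 := by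
    rintro rfl
    rw [Matrix.rank_zero] at hr0
    exact lt_irrefl _ hr0
  obtain ⟨E, hE, hEt⟩ := exists_exceptional hU hc Z hol hY
  refine ⟨E, hE, fun t ht htE => ?_⟩
  obtain ⟨hZt, hpos⟩ := hW _ ⟨t, ht, rfl⟩
  have h3 : LA (DZ '' (Z '' U)) ≤ lieM (DZ (Z t)) ℂ := by
    refine LA_le_lieM ?_
    rintro _ ⟨_, ⟨s', hs', rfl⟩, rfl⟩
    exact hEt t ht htE s' hs'
  have h4 : IsSimpleAV (Z t) := simple_of_mem hZt hpos (hW _ ⟨s, hs, rfl⟩).2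
    (hEt t ht htE s hs) hsimple
  refine Pool.Agent.Y91.JP.hasPcs_of_unipotent3 hW ⟨t, ht, rfl⟩ h4 h3 hdim hN hN2 hN0 hr1 hr2 ?_
  rcases hr3 with h5 | ⟨r', h5, h6, h7⟩
  · left
    rintro ⟨j, e, hj, h6, h7⟩
    refine h5 e ⟨j, hj, ?_, ?_⟩
    · rw [h6, Nat.centralBinom, show 2 * (2 * j + 1) = 4 * j + 2 by ring]
    · rw [h7, Nat.centralBinom, show 2 * (2 * j) = 4 * j by ring]
  · obtain ⟨N', hN', hN'2, rfl⟩ := rational ⟨s, hs⟩ hW h5
    refine Or.inr (Or.inl ⟨N', hN', hN'2, ?_, h7⟩)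
    rintro rfl
    rw [Matrix.rank_zero] at h6
    exact lt_irrefl _ h6

/-- The very general members of good families. -/
theorem exists_pcs {U : Set ℂ} (hU : IsOpen U) (hc : IsPreconnected U)
    {Z : ℂ → Matrix (Fin g) (Fin g) ℂ} (h : IsGoodFamily U Z) :
    ∃ E : Set ℂ, E.Countable ∧ ∀ t ∈ U, t ∉ E → HasPcs (DZ (Z t)) := by
  rcases U.eq_empty_or_nonempty with rfl | hne
  · exact ⟨∅, Set.countable_empty, fun t ht => absurd ht (Set.notMem_empty t)⟩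
  obtain ⟨hol, hper, h⟩ := h
  have hW : IsPer (Z '' U) := by
    rintro _ ⟨t, ht, rfl⟩
    exact hper t ht
  rcases h with ⟨hs, hd, r, hr, h0, h1, h2, h3⟩ |
    ⟨hE, r, hr, h0, h1, h2, h3, r₁, r₂, h4, h5, h6⟩ | ⟨hs, r, hr, h⟩
  · exact pcs_rational hU hc hol hW hs hd hr h0 h1 h2 h3
  · refine Pool.Agent.Y91.JP.small_pcs3 hU hc hne hol hW hE (rankIn hU hol hW hr) h0.ne' h1 h2
      (rankIn hU hol hW h4) (rankIn hU hol hW h5) h6 ?_
    rcases h3 with h3 | ⟨r', h7, h8, h9⟩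
    · left
      intro j hj h7 h8
      refine h3 ⟨j, hj, ?_, ?_⟩
      · rw [h7, Nat.centralBinom, show 2 * (2 * j + 1) = 4 * j + 2 by ring, one_mul]
      · rw [h8, Nat.centralBinom, show 2 * (2 * j) = 4 * j by ring, one_mul]
    · exact Or.inr ⟨r', rankIn hU hol hW h7, h8.ne', h9⟩
  · exact Pool.Agent.TH125.family_pcs hU hc Z hol hW hs (rankIn hU hol hW hr) h

/-- The very general member: the group is symplectic and the member is simple. -/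
theorem exists_simple {U : Set ℂ} (hU : IsOpen U) (hc : IsPreconnected U)
    {Z : ℂ → Matrix (Fin g) (Fin g) ℂ} (h : IsGoodFamily U Z) :
    ∃ E : Set ℂ, E.Countable ∧ ∀ t ∈ U, t ∉ E → HasPcs (DZ (Z t)) ∧ IsSimpleAV (Z t) := by
  have hW : IsPer (Z '' U) := by
    rintro _ ⟨t, ht, rfl⟩
    exact h.2.1 t ht
  obtain ⟨E1, hE1, h1⟩ := exists_pcs hU hc h
  obtain ⟨E2, hE2, h2⟩ := Pool.Agent.Y91.JP.exists_simple hU hc h.1 hW (by
    rcases h.2.2 with h | h | h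
    · exact Or.inl h.1
    · exact Or.inr h.1
    · exact Or.inl h.1)
  refine ⟨E1 ∪ E2, hE1.union hE2, fun t ht htE => ?_⟩
  simp only [Set.mem_union, not_or] at htE
  exact ⟨h1 t ht htE.1, h2 t ht htE.2⟩

/-- The very general member: the group is symplectic, the member is simple and has a period which is
transcendental over `K`. -/
theorem exists_good {U : Set ℂ} (hU : IsOpen U) (hc : IsPreconnected U)
    {Z : ℂ → Matrix (Fin g) (Fin g) ℂ} (h : IsGoodFamily U Z)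
    (hnc : ∃ s ∈ U, ∃ t ∈ U, Z s ≠ Z t) (K : Subfield ℂ) (hK : (K : Set ℂ).Countable) :
    ∃ E : Set ℂ, E.Countable ∧ ∀ t ∈ U, t ∉ E → HasPcs (DZ (Z t)) ∧
      IsSimpleAV (Z t) ∧ ∃ a b, Transcendental K (Z t a b) := by
  obtain ⟨E1, hE1, h1⟩ := exists_simple hU hc h
  obtain ⟨E3, hE3, h3⟩ := Pool.Agent.Y91.JP.exists_transcendental hU hc h.1 hnc K hK
  refine ⟨E1 ∪ E3, hE1.union hE3, fun t ht htE => ?_⟩
  simp only [Set.mem_union, not_or] at htE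
  exact ⟨(h1 t ht htE.1).1, (h1 t ht htE.1).2, h3 t ht htE.2⟩

end Pool.Agent.Y91.Sharp
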